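import Pool.Agent.ASD.Stmts5
import Pool.Agent.ASD.Stmts2

/-!
# Squad ASD, row CPD: comparison of four groups
-/

open scoped BigOperators

set_option autoImplicit false
set_option linter.unusedSectionVars false

noncomputable section

namespace Pool.Agent.PP.SD.H13

open Pool.Agent.Helper51_AWC Pool.Agent.Helper79_WRA Pool.Agent.PP Pool.Agent.PP.KF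
open Pool.Agent.PP.K9 Pool.Agent.PP.K9.H97 Pool.Agent.PP.H75 Pool.Agent.PP.T3 Pool.Agent.PP.SO

attribute [local instance] Ideal.Quotient.field

theorem cpd (dfb : DfbStmt) (pax : PaxStmt) (t5c : T5cStmt) (rtz : RtzStmt) : CpdStmt := by
  intro ℓ _ M _ hM hℓ V₀ _ _ E₀ A₁ A₂ hD n r hr hn ρ₁ ρ₂ x₁ x₂ c d hc hd hc1 hd1 hρ₁ hρ₂ hx₁ hx₂ hA
  obtain ⟨F₁₃, F₁₂, K, hF, hRel⟩ := rtz ℓ V₀ hD.ex n ρ₁ ρ₂ ⟨r, hr, hn⟩ hρ₁ hρ₂ x₁ x₂ hx₁ hx₂ c d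
  obtain ⟨K₀, hK⟩ := dfb ℓ M hM hℓ V₀ E₀ A₁ A₂ hD n r hr hn ρ₁ ρ₂ x₁ x₂ c d hc hd hc1 hd1 F₁₃ F₁₂ K
    hρ₁ hρ₂ hA hF
  refine ⟨K₀, ?_⟩
  intro k hk G₀ G₁ G₂ G₃ G₀' G₁' G₂' G₃' H _ _ _ _ _ _ _ _ _ _ _ _ _ _ _ _ _ _ B₀ B₁ B₂ B₃
    B₀' B₁' B₂' B₃' BR j₁ j₂ j₃ j₄ i₀ i₁ i₂ i₃ m S₀ S₁ S₂ S₃ S₀' S₁' S₂' S₃' SR
    P₀ P₁ P₂ P₃ P₀' P₁' P₂' P₃' PH q1 q2 q3 q4 r01 r02 r11 r12 r21 r22 r31 r32 u₀ u₁ u₂ u₃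
  have D₀ := hK k hk G₀ G₀' H B₀ B₀' BR i₀ m S₀ S₀' SR P₀ P₀' PH (hRel G₀ m B₀.i S₀.inj P₀)
    (hRel G₀' m B₀'.i S₀'.inj P₀') r01 r02 u₀
  have D₁ := hK k hk G₁ G₁' H B₁ B₁' BR i₁ m S₁ S₁' SR P₁ P₁' PH (hRel G₁ m B₁.i S₁.inj P₁)
    (hRel G₁' m B₁'.i S₁'.inj P₁') r11 r12 u₁
  have D₂ := hK k hk G₂ G₂' H B₂ B₂' BR i₂ m S₂ S₂' SR P₂ P₂' PH (hRel G₂ m B₂.i S₂.inj P₂)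
    (hRel G₂' m B₂'.i S₂'.inj P₂') r21 r22 u₂
  have D₃ := hK k hk G₃ G₃' H B₃ B₃' BR i₃ m S₃ S₃' SR P₃ P₃' PH (hRel G₃ m B₃.i S₃.inj P₃)
    (hRel G₃' m B₃'.i S₃'.inj P₃') r31 r32 u₃
  obtain ⟨a01, a02⟩ := (pax ℓ M hM hℓ V₀ G₀ G₁ E₀ A₁ A₂ hD B₀ B₁ j₁ S₀.toSb S₁.toSb n m P₀).1 q1
    c d F₁₃ F₁₂
  obtain ⟨a21, a22⟩ := (pax ℓ M hM hℓ V₀ G₂ G₃ E₀ A₁ A₂ hD B₂ B₃ j₃ S₂.toSb S₃.toSb n m P₂).1 q3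
    c d F₁₃ F₁₂
  obtain ⟨b03, b04, -, b05⟩ := (pax ℓ M hM hℓ V₀ G₀ G₂ E₀ A₁ A₂ hD B₀ B₂ j₂ S₀.toSb S₂.toSb n m
    P₀).2 q2 c d F₁₂
  obtain ⟨b13, b14, -, b15⟩ := (pax ℓ M hM hℓ V₀ G₁ G₃ E₀ A₁ A₂ hD B₁ B₃ j₄ S₁.toSb S₃.toSb n m
    P₁).2 q4 c d F₁₂
  have t02 := t5c ℓ M hM hℓ V₀ G₀ G₂ G₀ E₀ A₁ A₂ hD B₀ B₂ B₀ S₀ S₂ S₀ n m r hr hn P₀ ρ₁ ρ₂ x₁ x₂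
    c d hc hd hc1 hd1 F₁₃ F₁₂ K hρ₁ hρ₂ hx₁ hx₂ hA hF
  have t13 := t5c ℓ M hM hℓ V₀ G₁ G₃ G₁ E₀ A₁ A₂ hD B₁ B₃ B₁ S₁ S₃ S₁ n m r hr hn P₁ ρ₁ ρ₂ x₁ x₂
    c d hc hd hc1 hd1 F₁₃ F₁₂ K hρ₁ hρ₂ hx₁ hx₂ hA hF
  have t02R := t5c ℓ M hM hℓ V₀ G₀ G₂ H E₀ A₁ A₂ hD B₀ B₂ BR S₀ S₂ SR n m r hr hn PH ρ₁ ρ₂ x₁ x₂
    c d hc hd hc1 hd1 F₁₃ F₁₂ K hρ₁ hρ₂ hx₁ hx₂ hA hF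
  have t13R := t5c ℓ M hM hℓ V₀ G₁ G₃ H E₀ A₁ A₂ hD B₁ B₃ BR S₁ S₃ SR n m r hr hn PH ρ₁ ρ₂ x₁ x₂
    c d hc hd hc1 hd1 F₁₃ F₁₂ K hρ₁ hρ₂ hx₁ hx₂ hA hF
  have e := add_mem (sub_mem (sub_mem D₀ D₁) D₂) D₃
  have e' := add_mem (sub_mem (sub_mem (add_mem e t13) t02) t13R) t02R
  rw [a01, a02] at e'
  rw [a21, a22] at e'
  rw [b03, b04, b05 B₂.U] at e'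
  rw [b13, b14, b15 B₃.U] at e'
  refine cast (congrArg (fun z => z ∈ RM M) ?_) e'
  ring

end Pool.Agent.PP.SD.H13
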