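import Pool.Agent.ASD.Stmts6
import Pool.Agent.Helper1_ASO.SYE

/-!
# Squad ASD, row INB: the three blocks
-/

open scoped BigOperators

set_option autoImplicit false
set_option linter.unusedSectionVars false

noncomputable section

namespace Pool.Agent.PP.SD.H13

open Pool.Agent.Helper51_AWC Pool.Agent.Helper79_WRA Pool.Agent.PP Pool.Agent.PP.KF
open Pool.Agent.PP.K9 Pool.Agent.PP.K9.H97 Pool.Agent.PP.H75 Pool.Agent.PP.T3 Pool.Agent.PP.SO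

attribute [local instance] Ideal.Quotient.field

section c

variable {F V₀ G : Type} [CommGroup V₀] [Group G]

theorem memC (B : Bk F V₀ G) (A : Subgroup V₀) (x : G) :
    x ∈ B.C A ↔ ∀ a ∈ A, B.i a * x = x * B.i a := by
  show x ∈ Subgroup.centralizer ((A.map B.i : Subgroup G) : Set G) ↔ _
  rw [Subgroup.mem_centralizer_iff]
  constructor
  · intro h a ha
    exact h _ (Subgroup.mem_map_of_mem B.i ha)
  · rintro h _ ⟨a, ha, rfl⟩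
    exact h a ha

theorem memC_sub {A : Subgroup V₀} {B : Bk F V₀ G} {H : Subgroup G} {B' : Bk F V₀ H}
    (hi : ∀ v, (B'.i v : G) = B.i v) (x : H) : x ∈ B'.C A ↔ (x : G) ∈ B.C A := by
  rw [memC, memC]
  refine forall_congr' fun a => forall_congr' fun _ => ?_
  rw [← hi, ← Subgroup.coe_mul, ← Subgroup.coe_mul, Subtype.ext_iff]

end c

section step

variable {F V₀ G : Type} [CommGroup V₀] [Group G]

/-- the stabiliser of the other subpair in the first stabiliser -/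
theorem range_eq {B : Bk F V₀ G} {A A' : Subgroup V₀} {H H' H₃ : Subgroup G} {B' : Bk F V₀ H}
    (hH : H = HA B A) (hH' : H' = HA B A') (h₃ : H₃ = H ⊓ H') (h : H₃ ≤ H)
    (hi : ∀ v, (B'.i v : G) = B.i v)
    (hT : ∀ x : H, (x : G) ∈ Tg B.i.range B.g ↔ x ∈ Tg B'.i.range B'.g)
    (h1 : ∀ x, x ∈ HA B A' ↔ ∃ t ∈ Tg B.i.range B.g, t⁻¹ * x ∈ B.C A')
    (h2 : Tg B.i.range B.g ≤ HA B A)
    (h3 : ∀ x, x ∈ HA B' A' ↔ ∃ t ∈ Tg B'.i.range B'.g, t⁻¹ * x ∈ B'.C A') :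
    (Subgroup.inclusion h).range = HA B' A' := by
  ext x
  constructor
  · rintro ⟨y, rfl⟩
    rw [h3]
    have hy : (y : G) ∈ HA B A' := by
      have h4 : H₃ ≤ HA B A' := by
        rw [h₃, ← hH']
        exact inf_le_right
      exact h4 y.2
    obtain ⟨t, ht, ht'⟩ := (h1 _).1 hy
    have htH : t ∈ H := by
      rw [hH]
      exact h2 ht
    refine ⟨⟨t, htH⟩, (hT _).1 ht, ?_⟩
    rw [memC_sub hi]
    exact ht'
  · intro hx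
    obtain ⟨t, ht, ht'⟩ := (h3 x).1 hx
    have hx' : (x : G) ∈ H' := by
      rw [hH', h1]
      exact ⟨t, (hT t).2 ht, (memC_sub hi _).1 ht'⟩
    have hx₃ : (x : G) ∈ H₃ := by
      rw [h₃]
      exact ⟨x.2, hx'⟩
    exact ⟨⟨x, hx₃⟩, rfl⟩

end step

theorem inb (hat : HatStmt) (ina : InaStmt) (une : UneStmt) (lbu : LbuStmt) : InbStmt := by
  intro ℓ hl M _ hM hℓ V₀ G _ _ _ _ E₀ hF A₁ A₂ hA₁ hA₂ hE₁ hE₂ B hS H₁ H₂ H₃ e₁ e₂ e₃ h₁ h₂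
  obtain ⟨a1, a2, a3, a4, a5, a6⟩ := hat ℓ M hM hℓ V₀ G E₀ hF B hS A₁ hE₁
  obtain ⟨b1, b2, b3, b4, b5, b6⟩ := hat ℓ M hM hℓ V₀ G E₀ hF B hS A₂ hE₂
  obtain ⟨B₁, S₁, P₁, -, R₁, T₁, N₁⟩ := ina ℓ M hM hℓ V₀ G H₁ E₀ hF B hS A₁ hA₁ hE₁ H₁.subtype
    H₁.subtype_injective (by rw [Subgroup.range_subtype]; exact e₁)
  obtain ⟨B₂, S₂, P₂, -, R₂, T₂, N₂⟩ := ina ℓ M hM hℓ V₀ G H₂ E₀ hF B hS A₂ hA₂ hE₂ H₂.subtype
    H₂.subtype_injective (by rw [Subgroup.range_subtype]; exact e₂)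
  obtain ⟨c1, -⟩ := hat ℓ M hM hℓ V₀ H₁ E₀ hF B₁ S₁.toSb A₂ hE₂
  obtain ⟨d1, -⟩ := hat ℓ M hM hℓ V₀ H₂ E₀ hF B₂ S₂.toSb A₁ hE₁
  have i₁ : ∀ v, (B₁.i v : G) = B.i v := P₁.i
  have i₂ : ∀ v, (B₂.i v : G) = B.i v := P₂.i
  have r₂ : (Subgroup.inclusion h₂).range = HA B₂ A₁ :=
    range_eq e₂ e₁ (e₃.trans (inf_comm _ _)) h₂ i₂ T₂ a1 b2 d1
  have r₁ : (Subgroup.inclusion h₁).range = HA B₁ A₂ :=
    range_eq e₁ e₂ e₃ h₁ i₁ T₁ b1 a2 c1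
  obtain ⟨B₃, S₃, P₃, -, R₃, T₃, N₃⟩ := ina ℓ M hM hℓ V₀ H₂ H₃ E₀ hF B₂ S₂.toSb A₁ hA₁ hE₁
    (Subgroup.inclusion h₂) (Subgroup.inclusion_injective h₂) r₂
  obtain ⟨B₄, S₄, P₄, -, R₄, T₄, N₄⟩ := ina ℓ M hM hℓ V₀ H₁ H₃ E₀ hF B₁ S₁.toSb A₂ hA₂ hE₂
    (Subgroup.inclusion h₁) (Subgroup.inclusion_injective h₁) r₁
  have i₃ : ∀ v, (B₃.i v : G) = B.i v := fun v => by
    rw [← i₂ v, ← P₃.i v]
    rfl
  have i₄ : ∀ v, (B₄.i v : G) = B.i v := fun v => by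
    rw [← i₁ v, ← P₄.i v]
    rfl
  have hi : B₃.i = B₄.i := MonoidHom.ext fun v => Subtype.ext ((i₃ v).trans (i₄ v).symm)
  have hg : B₃.g = B₄.g := by
    funext x
    have x1 : B₃.g x = B.g x := (P₃.g x).trans (P₂.g _)
    have x2 : B₄.g x = B.g x := (P₄.g x).trans (P₁.g _)
    rw [x1, x2]
  have he : B₃.e = B₄.e := by
    have l3 := S₃.ld
    have l4 := S₄.ld
    rw [← hi, ← hg] at l4
    exact une ℓ M hM H₃ _ _ _ _ l3 l4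
  have hGF : GoodF ℓ (FF M) := H50.fld ℓ Fact.out M hM
  have hb : ∀ W, B₃.b W = B₄.b W := by
    intro W
    obtain ⟨-, huni, -⟩ := lbu ℓ (FF M) hGF V₀ H₃ B₃.e B₃.g B₃.i S₃.inj S₃.ld
    have l4 := S₄.lb W
    rw [← hi, ← hg, ← he] at l4
    exact huni W _ _ (S₃.lb W) l4
  have P₄' : Pr A₂ B₁ B₃ (Subgroup.inclusion h₁) :=
    ⟨P₄.inj, fun v => by rw [hi]; exact P₄.i v, P₄.cen, fun h => by rw [hg]; exact P₄.g h,
      fun W hW h => by rw [hb]; exact P₄.b W hW h⟩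
  refine ⟨B₁, B₂, B₃, S₁, S₂, S₃, P₁, P₂, P₃, P₄', ?_, ?_, fun x => (T₁ x).symm,
    fun x => (T₂ x).symm, fun x => ?_, N₁, N₂, N₃, ?_⟩
  · rw [e₃, e₁, e₂]
    exact le_inf a5 b5
  · rw [e₃, e₁, e₂]
    exact le_inf a2 b2
  · exact ((T₃ x).symm.trans (T₂ _).symm)
  · rw [hi]
    exact N₄

end Pool.Agent.PP.SD.H13
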