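import Pool.Agent.ASD.Stmts4
import Pool.Agent.Helper10_ASO.W12B

/-!
# Squad ASD, row MXB: `W13`, the other mixed type

The symmetry `(i, j, p, q) ↦ (j, i, q, p)` of `W13` and of `N13`.
-/

open scoped BigOperators

set_option autoImplicit false
set_option linter.unusedSectionVars false

noncomputable section

namespace Pool.Agent.PP.SD.H13

open Pool.Agent.Helper51_AWC Pool.Agent.Helper79_WRA Pool.Agent.PP Pool.Agent.PP.KF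
open Pool.Agent.PP.K9 Pool.Agent.PP.K9.H97 Pool.Agent.PP.H75 Pool.Agent.PP.T3 Pool.Agent.PP.SO

attribute [local instance] Ideal.Quotient.field

section sw

variable {n : ℕ} {V₀ : Type} [CommGroup V₀]

/-- the exchanged conditions -/
def sw (L : Set (SO.SS n V₀)) : Set (SO.SS n V₀) :=
  {s | (s.2.1, s.1, s.2.2.2, s.2.2.1) ∈ L}

theorem mem_sw {L : Set (SO.SS n V₀)} {s : SO.SS n V₀} (h : s ∈ L) :
    ((s.2.1, s.1, s.2.2.2, s.2.2.1) : SO.SS n V₀) ∈ sw L := h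

theorem pL_sw (L : Set (SO.SS n V₀)) : pL (sw L) = qL L := by
  unfold pL qL
  congr 1
  ext p
  constructor
  · rintro ⟨s, hs, rfl⟩
    exact ⟨_, hs, rfl⟩
  · rintro ⟨s, hs, rfl⟩
    exact ⟨_, mem_sw hs, rfl⟩

theorem qL_sw (L : Set (SO.SS n V₀)) : qL (sw L) = pL L := by
  unfold pL qL
  congr 1
  ext p
  constructor
  · rintro ⟨s, hs, rfl⟩
    exact ⟨_, hs, rfl⟩
  · rintro ⟨s, hs, rfl⟩
    exact ⟨_, mem_sw hs, rfl⟩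

/-- the exchanged conditions of the sums `SL` -/
def sv (L : Set (V₀ × V₀ × ℤ)) : Set (V₀ × V₀ × ℤ) := {s | (s.2.1, s.1, -s.2.2) ∈ L}

theorem sv_Lq (L : Set (SO.SS n V₀)) : sv (SD.Lq L) = SD.Lm (sw L) := by
  ext s
  constructor
  · rintro ⟨t, ht, h⟩
    simp only [Prod.mk.injEq] at h
    obtain ⟨h1, h2, h3⟩ := h
    refine ⟨_, mem_sw ht, Prod.ext h2 (Prod.ext h1 ?_)⟩
    show s.2.2 = -((t.1 : ℕ) : ℤ)
    rw [← h3, neg_neg]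
  · rintro ⟨t, ht, rfl⟩
    refine ⟨_, ht, ?_⟩
    refine Prod.ext rfl (Prod.ext rfl ?_)
    exact neg_neg _

theorem sv_Lm (L : Set (SO.SS n V₀)) : sv (SD.Lm L) = SD.Lq (sw L) := by
  ext s
  constructor
  · rintro ⟨t, ht, h⟩
    simp only [Prod.mk.injEq] at h
    obtain ⟨h1, h2, h3⟩ := h
    exact ⟨_, mem_sw ht, Prod.ext h2 (Prod.ext h1 (neg_injective h3))⟩
  · rintro ⟨t, ht, rfl⟩
    exact ⟨_, ht, rfl⟩

theorem n13_sw [Finite V₀] (E₀ : Subgroup (MulAut V₀)) (c d : V₀) (L : Set (SO.SS n V₀)) :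
    N13 E₀ d c (sw L) = N13 E₀ c d L := by
  have key : ∀ (σ : MulAut V₀) (a b x : V₀), σ (a * x) = b ↔ σ⁻¹ b * x⁻¹ = a := by
    intro σ a b x
    constructor
    · rintro rfl
      rw [MulAut.inv_apply_self, mul_inv_cancel_right]
    · rintro rfl
      rw [inv_mul_cancel_right, MulAut.apply_inv_self]
  unfold N13
  refine (Set.ncard_congr (fun w _ => (w.2.1⁻¹, w.1⁻¹, w.2.1.1 (c * w.2.2))) ?_ ?_ ?_).symm
  · rintro ⟨σ₁, σ₂, X⟩ ⟨h1, h2⟩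
    refine ⟨?_, fun s hs => ?_⟩
    · show (σ₂.1)⁻¹ (σ₂.1 (c * X)) = c * (σ₁.1)⁻¹ (d * σ₂.1 (c * X))
      rw [MulAut.inv_apply_self, ← h1, MulAut.inv_apply_self]
    · obtain ⟨h3, h4⟩ := h2 _ hs
      have h3' : σ₁.1 (s.2.2.2 * (X ^ (s.1 : ℕ))⁻¹) = s.2.2.1 := h3
      have h4' : σ₂.1 (s.2.2.2 * (c * X) ^ (s.2.1 : ℕ)) = s.2.2.1 := h4
      refine ⟨?_, ?_⟩
      · show (σ₂.1)⁻¹ (s.2.2.1 * ((σ₂.1 (c * X)) ^ (s.2.1 : ℕ))⁻¹) = s.2.2.2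
        have h5 := (key σ₂.1 _ _ _).1 h4'
        rw [← h5, map_mul, map_inv, map_pow, MulAut.inv_apply_self]
      · show (σ₁.1)⁻¹ (s.2.2.1 * (d * σ₂.1 (c * X)) ^ (s.1 : ℕ)) = s.2.2.2
        have h5 := (key σ₁.1 _ _ _).1 h3'
        have h1' : σ₁.1 X = d * σ₂.1 (c * X) := h1
        rw [← h1', ← h5, map_mul, map_pow, MulAut.inv_apply_self, inv_inv]
  · rintro ⟨σ₁, σ₂, X⟩ ⟨τ₁, τ₂, Y⟩ - - h
    simp only [Prod.mk.injEq] at h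
    obtain ⟨h1, h2, h3⟩ := h
    have e1 : σ₁ = τ₁ := inv_injective h2
    have e2 : σ₂ = τ₂ := inv_injective h1
    subst e1 e2
    have h4 := σ₂.1.injective h3
    rw [mul_left_cancel h4]
  · rintro ⟨τ₁, τ₂, Y⟩ ⟨h1, h2⟩
    have h1' : τ₁.1 Y = c * τ₂.1 (d * Y) := h1
    refine ⟨(τ₂⁻¹, τ₁⁻¹, τ₂.1 (d * Y)), ⟨?_, fun s hs => ?_⟩, ?_⟩
    · show (τ₂.1)⁻¹ (τ₂.1 (d * Y)) = d * (τ₁.1)⁻¹ (c * τ₂.1 (d * Y))
      rw [MulAut.inv_apply_self, ← h1', MulAut.inv_apply_self]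
    · obtain ⟨h3, h4⟩ := h2 _ (mem_sw hs)
      have h3' : τ₁.1 (s.2.2.2 * (Y ^ (s.1 : ℕ))⁻¹) = s.2.2.1 := h3
      have h4' : τ₂.1 (s.2.2.2 * (d * Y) ^ (s.2.1 : ℕ)) = s.2.2.1 := h4
      refine ⟨?_, ?_⟩
      · show (τ₂.1)⁻¹ (s.2.2.1 * ((τ₂.1 (d * Y)) ^ (s.2.1 : ℕ))⁻¹) = s.2.2.2
        have h5 := (key τ₂.1 _ _ _).1 h4'
        rw [← h5, map_mul, map_inv, map_pow, MulAut.inv_apply_self]
      · show (τ₁.1)⁻¹ (s.2.2.1 * (c * τ₂.1 (d * Y)) ^ (s.1 : ℕ)) = s.2.2.2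
        have h5 := (key τ₁.1 _ _ _).1 h3'
        rw [← h1', ← h5, map_mul, map_pow, MulAut.inv_apply_self, inv_inv]
    · refine Prod.ext (inv_inv _) (Prod.ext (inv_inv _) ?_)
      show (τ₁.1)⁻¹ (c * τ₂.1 (d * Y)) = Y
      rw [← h1', MulAut.inv_apply_self]

end sw

section sl

variable {V₀ G : Type} [CommGroup V₀] [Group G] [Finite G]
  {M : Ideal (integralClosure ℤ ℂ)} [M.IsMaximal]

theorem sl_sv (B : Bk (FF M) V₀ G) (m : ℕ) (L : Set (V₀ × V₀ × ℤ)) (χ χ' : G → ℂ)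
    (h : ∀ g, starRingEnd ℂ (χ g) = χ g⁻¹) (h' : ∀ g, starRingEnd ℂ (χ' g) = χ' g⁻¹) :
    SL B m L χ χ' = starRingEnd ℂ (SL B m (sv L) χ' χ) := by
  classical
  have := Fintype.ofFinite G
  unfold SL
  rw [finsum_mem_eq_finite_toFinset_sum _ (Set.toFinite _),
    finsum_mem_eq_finite_toFinset_sum _ (Set.toFinite _), map_sum]
  refine Finset.sum_bij' (fun w _ => (w.2⁻¹ * w.1 * w.2, w.2⁻¹))
    (fun w _ => (w.2⁻¹ * w.1 * w.2, w.2⁻¹)) ?_ ?_ ?_ ?_ ?_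
  · intro w hw
    simp only [Set.Finite.mem_toFinset, Set.mem_setOf_eq] at hw ⊢
    intro s hs
    have h1 := hw _ hs
    simp only at h1
    have e : (w.2⁻¹ * w.1 * w.2) ^ m = w.2⁻¹ * w.1 ^ m * w.2 := by
      have := conj_pow (i := m) (a := w.2⁻¹) (b := w.1)
      rwa [inv_inv] at this
    have e2 : (w.2⁻¹ * w.1 ^ m * w.2) ^ s.2.2 = w.2⁻¹ * (w.1 ^ m) ^ s.2.2 * w.2 := by
      have := conj_zpow (i := s.2.2) (a := w.2⁻¹) (b := w.1 ^ m)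
      rwa [inv_inv] at this
    rw [e, e2, inv_inv]
    rw [zpow_neg, eq_mul_inv_iff_mul_eq] at h1
    rw [← h1]
    group
  · intro w hw
    simp only [Set.Finite.mem_toFinset, Set.mem_setOf_eq] at hw ⊢
    intro s hs
    have hs' : (s.2.1, s.1, -s.2.2) ∈ sv L := by
      show (s.1, s.2.1, - -s.2.2) ∈ L
      rw [neg_neg]
      exact hs
    have h1 := hw _ hs'
    simp only at h1
    have e : (w.2⁻¹ * w.1 * w.2) ^ m = w.2⁻¹ * w.1 ^ m * w.2 := by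
      have := conj_pow (i := m) (a := w.2⁻¹) (b := w.1)
      rwa [inv_inv] at this
    have e2 : (w.2⁻¹ * w.1 ^ m * w.2) ^ s.2.2 = w.2⁻¹ * (w.1 ^ m) ^ s.2.2 * w.2 := by
      have := conj_zpow (i := s.2.2) (a := w.2⁻¹) (b := w.1 ^ m)
      rwa [inv_inv] at this
    rw [e, e2, inv_inv]
    rw [zpow_neg, eq_mul_inv_iff_mul_eq] at h1
    rw [← h1]
    group
  · intro w _
    refine Prod.ext ?_ (inv_inv _)
    show (w.2⁻¹)⁻¹ * (w.2⁻¹ * w.1 * w.2) * w.2⁻¹ = w.1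
    group
  · intro w _
    refine Prod.ext ?_ (inv_inv _)
    show (w.2⁻¹)⁻¹ * (w.2⁻¹ * w.1 * w.2) * w.2⁻¹ = w.1
    group
  · intro w _
    show χ w.1 * χ' (w.2⁻¹ * w.1⁻¹ * w.2) =
      starRingEnd ℂ (χ' (w.2⁻¹ * w.1 * w.2) * χ ((w.2⁻¹)⁻¹ * (w.2⁻¹ * w.1 * w.2)⁻¹ * w.2⁻¹))
    rw [map_mul, h, h']
    have e1 : (w.2⁻¹ * w.1 * w.2)⁻¹ = w.2⁻¹ * w.1⁻¹ * w.2 := by group
    have e2 : ((w.2⁻¹)⁻¹ * (w.2⁻¹ * w.1 * w.2)⁻¹ * w.2⁻¹)⁻¹ = w.1 := by group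
    rw [e2, e1, mul_comm]

end sl

theorem mxb (mxa : MxaStmt) (w3c : W3cStmt) : MxbStmt := by
  intro ℓ _ M _ hM hℓ V₀ G _ _ _ _ E₀ hF B hS n m hPE c d L hd hq hR
  classical
  have := Fintype.ofFinite G
  have h0 := mxa ℓ M hM hℓ V₀ G E₀ hF B hS n m hPE d c (sw L) (by rw [pL_sw]; exact hd)
    (by rw [pL_sw]; exact hq) (by rw [qL_sw]; exact hR)
  have hG := w3c ℓ M hM hℓ V₀ G E₀ hF B hS.toSb n m hPE c d L
  have hH := w3c ℓ M hM hℓ V₀ G E₀ hF B hS.toSb n m hPE d c (sw L)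
  have hP : P13 E₀ B.U d c (sw L) = P13 E₀ B.U c d L := by
    unfold P13
    rw [pL_sw, qL_sw, n13_sw, mul_comm (ux B.U (qL L) d)]
  rw [hP, pL_sw] at h0
  rw [← h0, hG, hH, pL_sw, qL_sw, mul_comm (Nat.card (B.C (qL L)) : ℂ)]
  congr 1
  have f1 := SO.H10W.ch_fin B (pL L)
  have f2 := SO.H10W.ch_fin B (qL L)
  rw [finsum_mem_eq_finite_toFinset_sum _ f1, finsum_mem_eq_finite_toFinset_sum _ f2]
  have e1 : ∀ χ ∈ f1.toFinset, ∑ᶠ χ' ∈ Ch B (qL L), cv (fc B (pL L) c) χ * cv (fc B (qL L) d) χ' *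
      (SL B m (SD.Lm L) χ χ' * starRingEnd ℂ (SL B m (SD.Lq L) χ χ')) =
      ∑ χ' ∈ f2.toFinset, cv (fc B (pL L) c) χ * cv (fc B (qL L) d) χ' *
      (SL B m (SD.Lm L) χ χ' * starRingEnd ℂ (SL B m (SD.Lq L) χ χ')) := fun χ _ =>
    finsum_mem_eq_finite_toFinset_sum _ f2
  have e2 : ∀ χ' ∈ f2.toFinset, ∑ᶠ χ ∈ Ch B (pL L), cv (fc B (qL L) d) χ' * cv (fc B (pL L) c) χ *
      (SL B m (SD.Lm (sw L)) χ' χ * starRingEnd ℂ (SL B m (SD.Lq (sw L)) χ' χ)) =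
      ∑ χ ∈ f1.toFinset, cv (fc B (qL L) d) χ' * cv (fc B (pL L) c) χ *
      (SL B m (SD.Lm (sw L)) χ' χ * starRingEnd ℂ (SL B m (SD.Lq (sw L)) χ' χ)) := fun χ _ =>
    finsum_mem_eq_finite_toFinset_sum _ f1
  rw [Finset.sum_congr rfl e1, Finset.sum_congr rfl e2, Finset.sum_comm]
  refine Finset.sum_congr rfl fun χ' hχ' => Finset.sum_congr rfl fun χ hχ => ?_
  have hχ1 : χ ∈ Ch B (pL L) := f1.mem_toFinset.1 hχ
  have hχ2 : χ' ∈ Ch B (qL L) := f2.mem_toFinset.1 hχ'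
  rw [sl_sv B m (SD.Lm L) χ χ' (SO.H10W.ch_star hχ1) (SO.H10W.ch_star hχ2), sv_Lm,
    sl_sv B m (SD.Lq L) χ χ' (SO.H10W.ch_star hχ1) (SO.H10W.ch_star hχ2), sv_Lq,
    Complex.conj_conj]
  ring

end Pool.Agent.PP.SD.H13
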